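import Pool.Agent.N436.DF.Stm

/-!
PROJECT DF (helper436), part DF/11: two reducible configurations (helper749).
-/

set_option autoImplicit false

open Finset Pool.Agent.N436.DF

namespace Pool.Agent.N749.DF

theorem r_nn {V : Type} {P : Par} {H : Hub V} (hO : Ok P H) (u v : V) : 0 ≤ H.r u v := by
  rcases hO.r01 u v with h | h <;> rw [h] <;> norm_num

theorem eE_erase_le {V : Type} [DecidableEq V] {P : Par} {H : Hub V} (hO : Ok P H)
    (S : Finset V) (w : V) : eE H (S.erase w) ≤ eE H S := by
  unfold eE
  calc ∑ u ∈ S.erase w, ∑ v ∈ S.erase w, H.r u v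
      ≤ ∑ u ∈ S.erase w, ∑ v ∈ S, H.r u v :=
        sum_le_sum fun u _ => sum_le_sum_of_subset_of_nonneg (erase_subset w S)
          fun v _ _ => r_nn hO u v
    _ ≤ ∑ u ∈ S, ∑ v ∈ S, H.r u v :=
        sum_le_sum_of_subset_of_nonneg (erase_subset w S)
          fun u _ _ => sum_nonneg fun v _ => r_nn hO u v

theorem pend (hcaps : S_caps) : S_pend := by
  intro V _ P H S w u hM hwS huS hwu hr hm
  have hO := hM.ok
  have hne : u ≠ w := by
    rintro rfl
    rw [hO.r0] at hwu
    norm_num at hwu
  have hyp' : Hyp P H (S.erase w) := fun X hX hXne =>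
    hM.hyp X (hX.trans (erase_subset w S)) hXne
  obtain ⟨f, p, hc⟩ := hM.ih2 H (S.erase w) hO hyp' (eE_erase_le hO S w)
    (card_erase_lt_of_mem hwS)
  have hfw : Function.update f w (!(f u)) w = !(f u) := Function.update_self _ _ _
  have hfx : ∀ x, x ≠ w → Function.update f w (!(f u)) x = f x := fun x hx =>
    Function.update_of_ne hx _ _
  refine hM.ncol ⟨Function.update f w (!(f u)),
    fun x y => if x = w ∨ y = w then 0 else p x y, ?_, ?_, ?_⟩
  · intro x y
    split_ifs
    · exact le_refl 0
    · exact hc.nn x y
  · intro x hx y hy hxy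
    by_cases hxw : x = w
    · subst hxw
      rw [hm y hy]
      simp
    · by_cases hyw : y = w
      · subst hyw
        rw [hO.msymm, hm x hx]
        simp
      · rw [if_neg (by tauto), if_neg (by tauto)]
        rw [hfx x hxw, hfx y hyw] at hxy
        exact hc.pay x (mem_erase.2 ⟨hxw, hx⟩) y (mem_erase.2 ⟨hyw, hy⟩) hxy
  · intro x hx
    by_cases hxw : x = w
    · subst hxw
      have h0 : load H S (Function.update f x (!(f u)))
          (fun x' y => if x' = x ∨ y = x then 0 else p x' y) x = 0 := by
        unfold load
        refine sum_eq_zero fun y hy => ?_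
        by_cases hyx : y = x
        · subst hyx
          simp [hO.r0]
        · by_cases hyu : y = u
          · subst hyu
            rw [hfw, hfx y hyx]
            simp
          · rw [hr y hy hyu]
            simp
      rw [h0]
      exact hcaps V P H S hM x hwS _
    · have h1 := hc.cap x (mem_erase.2 ⟨hxw, hx⟩)
      have h2 : load H S (Function.update f w (!(f u)))
          (fun x' y => if x' = w ∨ y = w then 0 else p x' y) x = load H (S.erase w) f p x := by
        unfold load
        rw [← add_sum_erase S _ hwS]
        have h3 : (if Function.update f w (!(f u)) x = Function.update f w (!(f u)) w then H.r x w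
            else if x = w ∨ w = w then 0 else p x w) = 0 := by
          rw [hfw, hfx x hxw]
          by_cases hxu : x = u
          · subst hxu
            simp
          · rw [hO.rsymm, hr x hx hxu]
            simp
        rw [h3, zero_add]
        refine sum_congr rfl fun y hy => ?_
        have hyw := (mem_erase.1 hy).1
        have hn : ¬ (x = w ∨ y = w) := by tauto
        rw [hfx x hxw, hfx y hyw]
        simp only [hn, if_false]
      rw [h2, hfx x hxw]
      exact h1

/-- the case in which `u` has paid a unit for the artificial pair unit -/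
theorem zaux {V : Type} [DecidableEq V] {P : Par} {H : Hub V} (hO : Ok P H)
    (S : Finset V) (w u u' : V) (hwS : w ∈ S) (huS : u ∈ S) (hu'S : u' ∈ S) (huw : u ≠ w)
    (hu'w : u' ≠ w) (hwu : H.r w u = 1)
    (hr : ∀ x ∈ S, x ≠ u → x ≠ u' → H.r w x = 0) (hm : ∀ x ∈ S, H.m w x = 0)
    (hc : ∀ i, 1 ≤ H.c i w)
    (f : V → Bool) (p : V → V → ℤ) (hnn : ∀ x y, 0 ≤ p x y)
    (hpay : ∀ x ∈ S.erase w, ∀ y ∈ S.erase w, f x ≠ f y → H.m x y ≤ p x y + p y x)
    (hpay' : H.m u u' + 1 ≤ p u u' + p u' u)
    (hcap : ∀ x ∈ S.erase w, load H (S.erase w) f p x ≤ H.c (f x) x)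
    (h1 : 1 ≤ p u u') (hf : f u ≠ f u') : Col H S := by
  have huu' : u ≠ u' := fun h => hf (by rw [h])
  have hfw : Function.update f w (f u) w = f u := Function.update_self _ _ _
  have hfx : ∀ x, x ≠ w → Function.update f w (f u) x = f x := fun x hx =>
    Function.update_of_ne hx _ _
  set q : V → V → ℤ := fun x y => if x = w ∨ y = w then 0 else
    if x = u ∧ y = u' then p u u' - 1 else p x y with hq
  have q0 : ∀ x y, (x = w ∨ y = w) → q x y = 0 := by
    intro x y h
    simp only [hq, if_pos h]
  have q1 : q u u' = p u u' - 1 := by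
    show (if u = w ∨ u' = w then 0 else if u = u ∧ u' = u' then p u u' - 1 else p u u') = _
    rw [if_neg (by tauto), if_pos ⟨rfl, rfl⟩]
  have q2 : ∀ x y, x ≠ w → y ≠ w → ¬ (x = u ∧ y = u') → q x y = p x y := by
    intro x y hx hy h
    simp only [hq]
    rw [if_neg (by tauto), if_neg h]
  refine ⟨Function.update f w (f u), q, ?_, ?_, ?_⟩
  · intro x y
    by_cases h : x = w ∨ y = w
    · rw [q0 x y h]
    · by_cases h2 : x = u ∧ y = u'
      · obtain ⟨rfl, rfl⟩ := h2
        rw [q1]; omega
      · rw [q2 x y (by tauto) (by tauto) h2]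
        exact hnn x y
  · intro x hx y hy hxy
    by_cases hxw : x = w
    · subst hxw
      rw [hm y hy, q0 x y (Or.inl rfl), q0 y x (Or.inr rfl)]
      norm_num
    · by_cases hyw : y = w
      · subst hyw
        rw [hO.msymm, hm x hx, q0 x y (Or.inr rfl), q0 y x (Or.inl rfl)]
        norm_num
      · rw [hfx x hxw, hfx y hyw] at hxy
        have h2 := hpay x (mem_erase.2 ⟨hxw, hx⟩) y (mem_erase.2 ⟨hyw, hy⟩) hxy
        by_cases c1 : x = u ∧ y = u'
        · obtain ⟨rfl, rfl⟩ := c1
          rw [q1, q2 y x hyw hxw (fun h => huu' h.1.symm)]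
          omega
        · by_cases c2 : y = u ∧ x = u'
          · obtain ⟨rfl, rfl⟩ := c2
            rw [q1, q2 x y hxw hyw c1, hO.msymm]
            omega
          · rw [q2 x y hxw hyw c1, q2 y x hyw hxw c2]
            exact h2
  · intro x hx
    by_cases hxw : x = w
    · subst hxw
      have h0 : load H S (Function.update f x (f u)) q x = 1 := by
        unfold load
        have : ∀ y ∈ S, (if Function.update f x (f u) x = Function.update f x (f u) y
            then H.r x y else q x y) = if y = u then 1 else 0 := by
          intro y hy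
          rw [q0 x y (Or.inl rfl), hfw]
          by_cases hyx : y = x
          · subst hyx
            rw [hfw, if_pos rfl, hO.r0, if_neg (fun h => huw h.symm)]
          · rw [hfx y hyx]
            by_cases hyu : y = u
            · subst hyu
              rw [if_pos rfl, if_pos rfl, hwu]
            · rw [if_neg hyu]
              by_cases hyu' : y = u'
              · subst hyu'
                rw [if_neg hf]
              · rw [hr y hy hyu hyu']
                simp
        rw [sum_congr rfl this, sum_ite_eq' S u, if_pos huS]
      rw [h0, hfw]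
      exact hc _
    · have h2 := hcap x (mem_erase.2 ⟨hxw, hx⟩)
      rw [hfx x hxw]
      refine le_trans (le_of_eq ?_) h2
      unfold load
      rw [← add_sum_erase S _ hwS, q0 x w (Or.inr rfl), hfw, hfx x hxw]
      by_cases hxu : x = u
      · subst hxu
        rw [if_pos rfl, hO.rsymm, hwu]
        have hu'e : u' ∈ S.erase w := mem_erase.2 ⟨hu'w, hu'S⟩
        rw [← add_sum_erase (S.erase w) _ hu'e, ← add_sum_erase (S.erase w) _ hu'e,
          hfx u' hu'w, if_neg hf, if_neg hf, q1]
        have h3 : ∑ y ∈ (S.erase w).erase u',
            (if f x = Function.update f w (f x) y then H.r x y else q x y)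
            = ∑ y ∈ (S.erase w).erase u', (if f x = f y then H.r x y else p x y) := by
          refine sum_congr rfl fun y hy => ?_
          have hy1 := (mem_erase.1 hy).1
          have hyw := (mem_erase.1 (mem_erase.1 hy).2).1
          rw [hfx y hyw, q2 x y hxw hyw (fun h => hy1 h.2)]
        rw [h3]
        ring
      · have h4 : (if f x = f u then H.r x w else 0) = 0 := by
          by_cases hxu' : x = u'
          · subst hxu'
            rw [if_neg (fun h => hf h.symm)]
          · rw [hO.rsymm, hr x hx hxu hxu']
            simp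
        rw [h4, zero_add]
        refine sum_congr rfl fun y hy => ?_
        have hyw := (mem_erase.1 hy).1
        rw [hfx y hyw, q2 x y hxw hyw (fun h => hxu h.1)]

theorem ew_symm {V : Type} {P : Par} {H : Hub V} (hO : Ok P H) (u v : V) :
    ew P H u v = ew P H v u := by
  unfold ew
  rw [hO.rsymm, hO.msymm]

theorem rho_insert {V : Type} [DecidableEq V] {P : Par} {H : Hub V} (hO : Ok P H)
    (Y : Finset V) (w : V) (hw : w ∉ Y) :
    rho P H (insert w Y) = rho P H Y + 2 * wt P H w - 2 * ∑ x ∈ Y, ew P H w x := by
  unfold rho
  rw [sum_insert hw, sum_insert hw, sum_insert hw]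
  have h1 : ew P H w w = 0 := by
    unfold ew
    rw [hO.r0, hO.m0]; ring
  have h2 : ∑ u ∈ Y, ∑ v ∈ insert w Y, ew P H u v
      = ∑ x ∈ Y, ew P H w x + ∑ u ∈ Y, ∑ v ∈ Y, ew P H u v := by
    rw [← sum_add_distrib]
    refine sum_congr rfl fun u _ => ?_
    rw [sum_insert hw, ew_symm hO]
  rw [h1, h2]
  ring

theorem z (haddm : S_addm) : S_Z := by
  intro V _ P H S w u u' hM hwS huS hu'S huu' hwu hwu' hr hm hc1 hc2
  have hO := hM.ok
  have huw : u ≠ w := by
    rintro rfl
    rw [hO.r0] at hwu
    norm_num at hwu
  have hu'w : u' ≠ w := by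
    rintro rfl
    rw [hO.r0] at hwu'
    norm_num at hwu'
  have hcw : ∀ i, 1 ≤ H.c i w := by
    intro i
    cases i
    · exact hc2
    · exact hc1
  obtain ⟨o1, o2, -, -⟩ := haddm V P H 1 u u' hO huu'
    (by have := hO.m_nn u u'; omega)
  have hab := P.hab
  have hD2 := P.hD2
  have hD1 := P.hD1
  have hd := P.hd
  have hb := P.hb
  have hyp' : Hyp P (addm H 1 u u') (S.erase w) := by
    intro Y hY hYne
    have hwY : w ∉ Y := fun h => (mem_erase.1 (hY h)).1 rfl
    have hYS : Y ⊆ S := hY.trans (erase_subset w S)
    rw [o2 Y]
    by_cases hboth : u ∈ Y ∧ u' ∈ Y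
    · rw [if_pos hboth]
      have hins : insert w Y ⊆ S := insert_subset hwS hYS
      have h1 := hM.hyp (insert w Y) hins ⟨w, mem_insert_self w Y⟩
      rw [rho_insert hO Y w hwY] at h1
      have h2 : ∑ x ∈ Y, ew P H w x = 2 * P.D := by
        have h3 : ∀ x ∈ Y, ew P H w x = (if x = u then P.D else 0) + if x = u' then P.D else 0 := by
          intro x hx
          unfold ew
          rw [hm x (hYS hx)]
          by_cases c1 : x = u
          · subst c1
            rw [hwu, if_pos rfl, if_neg huu']
            ring
          · by_cases c2 : x = u'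
            · subst c2
              rw [hwu', if_pos rfl, if_neg c1]
              ring
            · rw [hr x (hYS hx) c1 c2, if_neg c1, if_neg c2]
              ring
        rw [sum_congr rfl h3, sum_add_distrib, sum_ite_eq' Y u, sum_ite_eq' Y u',
          if_pos hboth.1, if_pos hboth.2]
        ring
      have h4 : wt P H w ≤ 2 * P.D - P.a := by
        unfold wt
        have e1 : P.a * (H.c true w + 1) ≤ P.a * (P.j + 1) :=
          mul_le_mul_of_nonneg_left (by have := hO.c1_le w; omega) (by omega)
        have e2 : P.b * H.c false w ≤ P.b * P.k :=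
          mul_le_mul_of_nonneg_left (hO.c2_le w) (by omega)
        have e3 : P.b * P.k = P.D - P.b := by rw [← hD2]; ring
        omega
      rw [h2] at h1
      omega
    · rw [if_neg hboth]
      have := hM.hyp Y hYS hYne
      omega
  have hE : eE (addm H 1 u u') (S.erase w) < eE H S := by
    show eE H (S.erase w) < eE H S
    have h1 : eE H S = eE H (S.erase w) + 2 * ∑ x ∈ S.erase w, H.r w x := by
      unfold eE
      rw [← add_sum_erase S _ hwS, ← add_sum_erase S (fun v => H.r w v) hwS, hO.r0, zero_add]
      have h2 : ∑ x ∈ S.erase w, ∑ v ∈ S, H.r x v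
          = ∑ x ∈ S.erase w, H.r w x + ∑ x ∈ S.erase w, ∑ v ∈ S.erase w, H.r x v := by
        rw [← sum_add_distrib]
        refine sum_congr rfl fun x _ => ?_
        rw [← add_sum_erase S _ hwS, hO.rsymm]
      rw [h2]
      ring
    have h3 : 1 ≤ ∑ x ∈ S.erase w, H.r w x := by
      have h4 : H.r w u ≤ ∑ x ∈ S.erase w, H.r w x :=
        single_le_sum (f := fun x => H.r w x) (fun x _ => r_nn hO w x)
          (mem_erase.2 ⟨huw, huS⟩)
      rw [hwu] at h4
      exact h4
    omega
  obtain ⟨f, p, hc⟩ := hM.ih1 _ _ o1 hyp' hE
  have hmle : ∀ x y, H.m x y ≤ (addm H 1 u u').m x y := by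
    intro x y
    simp only [addm]
    split_ifs <;> omega
  have hpay : ∀ x ∈ S.erase w, ∀ y ∈ S.erase w, f x ≠ f y → H.m x y ≤ p x y + p y x :=
    fun x hx y hy hxy => (hmle x y).trans (hc.pay x hx y hy hxy)
  have hcap : ∀ x ∈ S.erase w, load H (S.erase w) f p x ≤ H.c (f x) x := fun x hx =>
    hc.cap x hx
  by_cases hf : f u = f u'
  · -- colour `w` differently
    have hfw : Function.update f w (!(f u)) w = !(f u) := Function.update_self _ _ _
    have hfx : ∀ x, x ≠ w → Function.update f w (!(f u)) x = f x := fun x hx =>
      Function.update_of_ne hx _ _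
    refine hM.ncol ⟨Function.update f w (!(f u)),
      fun x y => if x = w ∨ y = w then 0 else p x y, ?_, ?_, ?_⟩
    · intro x y
      split_ifs
      · exact le_refl 0
      · exact hc.nn x y
    · intro x hx y hy hxy
      by_cases hxw : x = w
      · subst hxw
        rw [hm y hy]
        simp
      · by_cases hyw : y = w
        · subst hyw
          rw [hO.msymm, hm x hx]
          simp
        · rw [if_neg (by tauto), if_neg (by tauto)]
          rw [hfx x hxw, hfx y hyw] at hxy
          exact hpay x (mem_erase.2 ⟨hxw, hx⟩) y (mem_erase.2 ⟨hyw, hy⟩) hxy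
    · intro x hx
      by_cases hxw : x = w
      · subst hxw
        have h0 : load H S (Function.update f x (!(f u)))
            (fun x' y => if x' = x ∨ y = x then 0 else p x' y) x = 0 := by
          unfold load
          refine sum_eq_zero fun y hy => ?_
          by_cases hyx : y = x
          · subst hyx
            simp [hO.r0]
          · by_cases hyu : y = u
            · subst hyu
              rw [hfw, hfx y hyx]
              simp
            · by_cases hyu' : y = u'
              · subst hyu'
                rw [hfw, hfx y hyx, ← hf]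
                simp
              · rw [hr y hy hyu hyu']
                simp
        rw [h0]
        have := hcw (Function.update f x (!(f u)) x)
        omega
      · have h1 := hcap x (mem_erase.2 ⟨hxw, hx⟩)
        have h2 : load H S (Function.update f w (!(f u)))
            (fun x' y => if x' = w ∨ y = w then 0 else p x' y) x
            = load H (S.erase w) f p x := by
          unfold load
          rw [← add_sum_erase S _ hwS]
          have h3 : (if Function.update f w (!(f u)) x = Function.update f w (!(f u)) w
              then H.r x w else if x = w ∨ w = w then 0 else p x w) = 0 := by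
            rw [hfw, hfx x hxw]
            by_cases hxu : x = u
            · subst hxu
              simp
            · by_cases hxu' : x = u'
              · subst hxu'
                rw [← hf]
                simp
              · rw [hO.rsymm, hr x hx hxu hxu']
                simp
          rw [h3, zero_add]
          refine sum_congr rfl fun y hy => ?_
          have hyw := (mem_erase.1 hy).1
          have hn : ¬ (x = w ∨ y = w) := by tauto
          rw [hfx x hxw, hfx y hyw]
          simp only [hn, if_false]
        rw [h2, hfx x hxw]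
        exact h1
  · have hsum : H.m u u' + 1 ≤ p u u' + p u' u := by
      have h1 := hc.pay u (mem_erase.2 ⟨huw, huS⟩) u' (mem_erase.2 ⟨hu'w, hu'S⟩) hf
      have h2 : (addm H 1 u u').m u u' = H.m u u' + 1 := by
        show (if (u = u ∧ u' = u') ∨ (u = u' ∧ u' = u) then H.m u u' + 1 else H.m u u') = _
        rw [if_pos (Or.inl ⟨rfl, rfl⟩)]
      rw [h2] at h1
      exact h1
    have hmn := hO.m_nn u u'
    by_cases h1 : 1 ≤ p u u'
    · exact hM.ncol (zaux hO S w u u' hwS huS hu'S huw hu'w hwu hr hm hcw f p hc.nn hpay
        hsum hcap h1 hf)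
    · have h2 : 1 ≤ p u' u := by omega
      refine hM.ncol (zaux hO S w u' u hwS hu'S huS hu'w huw hwu'
        (fun x hx c1 c2 => hr x hx c2 c1) hm hcw f p hc.nn hpay ?_ hcap h2
        (fun h => hf h.symm))
      rw [hO.msymm]
      omega

end Pool.Agent.N749.DF
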