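import Pool.Agent.N436.DF.Stm

/-!
PROJECT DF (helper436), part DF/10: capacities are nonnegative in a minimal counterexample
(helper749).
-/

set_option autoImplicit false

open Finset Pool.Agent.N436.DF

namespace Pool.Agent.N749.DF

theorem load_nonneg {V : Type} [DecidableEq V] {P : Par} {H : Hub V} (hO : Ok P H)
    (S : Finset V) (f : V → Bool) (p : V → V → ℤ) (hp : ∀ u v, 0 ≤ p u v) (u : V) :
    0 ≤ load H S f p u := by
  unfold load
  refine sum_nonneg fun v _ => ?_
  split_ifs
  · rcases hO.r01 u v with h | h <;> rw [h] <;> norm_num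
  · exact hp u v

theorem caps (hlow : S_low) (hdelr : S_delr) (haddm : S_addm) (hp : S_trPair) (hr : S_trReal)
    (htwo : S_two) (ha0 : S_A0) (ha1 : S_A1) (hconn : S_conn) : S_caps := by
  intro V _ P H S hM v hv i'
  by_contra hneg
  have hc' : H.c i' v = -1 := le_antisymm (by omega) (hM.ok.c_ge i' v)
  obtain ⟨w, hwS, hwv⟩ := htwo V P H S hM v hv
  have hSne : S.Nonempty := ⟨v, hv⟩
  have hrS : -(2 * P.b) < rho P H S := hM.hyp S (Subset.refl S) hSne
  have hvS : ({v} : Finset V) ≠ S := by
    intro h
    rw [← h, mem_singleton] at hwS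
    exact hwv hwS
  obtain ⟨x, hx, y, hy, hadj⟩ := hconn V P H S {v} hM (singleton_subset_iff.2 hv)
    (singleton_nonempty v) hvS
  rw [mem_singleton] at hx
  subst hx
  rw [mem_sdiff, mem_singleton] at hy
  obtain ⟨hyS, hyx⟩ := hy
  have hab := P.hab
  have hd := P.hd
  have hb := P.hb
  have hDa := P.hDa
  set i : Bool := !i' with hi
  have hii' : ∀ e : Bool, e ≠ i → e = i' := by
    intro e he
    rw [hi] at he
    cases e <;> cases i' <;> simp_all
  have hi'i : ¬ (i' = i) := by
    rw [hi]; cases i' <;> simp
  have hkap : kap P i ≤ P.a := by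
    unfold kap
    split_ifs <;> omega
  have hkap0 : 0 ≤ kap P i := by
    unfold kap
    split_ifs <;> omega
  have hbd : ∀ Y : Finset V, Y ⊆ S → Y.Nonempty → Y ≠ S →
      -(2 * P.b) < rho P H Y - 2 * kap P i := by
    intro Y h1 h2 h3
    by_cases h : i = true
    · have := ha1 V P H S Y hM h1 h2 h3
      simp only [kap, h, if_true]
      omega
    · have := ha0 V P H S Y hM h1 h2 h3
      simp only [kap, h, if_false]
      simp
      omega
  obtain ⟨l1, l2, -⟩ := hlow V P H i x hM.ok
  rcases hadj with hreal | hpair
  · -- real edge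
    obtain ⟨m1, m2, -⟩ := hlow V P (low H i x) i y l1
    have hrr : (low (low H i x) i y).r x y = 1 := hreal
    obtain ⟨q1, q2, -, q4, -⟩ := hdelr V P (low (low H i x) i y) x y m1 hrr
    have hyp2 : Hyp P (delr (low (low H i x) i y) x y) S := by
      intro Y hYS hYne
      have a1 := q2 Y
      have a2 := m2 Y
      have a3 := l2 Y
      have a4 := hM.hyp Y hYS hYne
      rw [a1]
      by_cases hxY : x ∈ Y <;> by_cases hyY : y ∈ Y
      · simp only [hxY, hyY, and_self, if_true] at a2 a3 ⊢
        omega
      · have hne : Y ≠ S := fun h => hyY (h ▸ hyS)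
        have a5 := hbd Y hYS hYne hne
        simp only [hxY, hyY, and_false, if_true, if_false] at a2 a3 ⊢
        omega
      · have hne : Y ≠ S := fun h => hxY (h ▸ hv)
        have a5 := hbd Y hYS hYne hne
        simp only [hxY, hyY, false_and, if_true, if_false] at a2 a3 ⊢
        omega
      · simp only [hxY, hyY, and_self, if_false] at a2 a3 ⊢
        omega
    have hE : eE (delr (low (low H i x) i y) x y) S < eE H S := q4 S hv hyS
    obtain ⟨f, p, hc⟩ := hM.ih1 _ S q1 hyp2 hE
    have hfx : f x = i := by
      by_contra hfx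
      have hfx' := hii' _ hfx
      have h1 := hc.cap x hv
      have h2 := load_nonneg q1 S f p hc.nn x
      have h3 : (delr (low (low H i x) i y) x y).c (f x) x = -1 := by
        rw [hfx']
        show (low (low H i x) i y).c i' x = -1
        simp only [low, hi'i, false_and, if_false]
        exact hc'
      omega
    exact hM.ncol ⟨f, p, hr V P H S i x y f p hM.ok hv hyS hreal hfx hc⟩
  · -- pair unit
    have hxy : x ≠ y := fun h => hyx h.symm
    have hmm : 0 ≤ (low H i x).m x y + (-1) := by
      show 0 ≤ H.m x y + (-1)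
      omega
    obtain ⟨q1, q2, q3, -⟩ := haddm V P (low H i x) (-1) x y l1 hxy hmm
    have hyp2 : Hyp P (addm (low H i x) (-1) x y) S := by
      intro Y hYS hYne
      have a1 := q2 Y
      have a3 := l2 Y
      have a4 := hM.hyp Y hYS hYne
      rw [a1]
      by_cases hxY : x ∈ Y <;> by_cases hyY : y ∈ Y
      · simp only [hxY, hyY, and_self, if_true] at a3 ⊢
        omega
      · have hne : Y ≠ S := fun h => hyY (h ▸ hyS)
        have a5 := hbd Y hYS hYne hne
        simp only [hxY, hyY, and_false, if_true, if_false] at a3 ⊢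
        omega
      · simp only [hxY, hyY, false_and, if_false] at a3 ⊢
        omega
      · simp only [hxY, hyY, and_self, if_false] at a3 ⊢
        omega
    have hE : eE (addm (low H i x) (-1) x y) S ≤ eE H S := le_refl _
    have hEM : eM (addm (low H i x) (-1) x y) S < eM H S := q3 S (by norm_num) hv hyS
    obtain ⟨f, p, hc⟩ := hM.ih3 _ S q1 hyp2 hE le_rfl hEM
    have hfx : f x = i := by
      by_contra hfx
      have hfx' := hii' _ hfx
      have h1 := hc.cap x hv
      have h2 := load_nonneg q1 S f p hc.nn x
      have h3 : (addm (low H i x) (-1) x y).c (f x) x = -1 := by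
        rw [hfx']
        show (low H i x).c i' x = -1
        simp only [low, hi'i, false_and, if_false]
        exact hc'
      omega
    obtain ⟨p', hp'⟩ := hp V P H S i x y f p hM.ok hv hyS hxy hfx hc
    exact hM.ncol ⟨f, p', hp'⟩

end Pool.Agent.N749.DF
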